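import Mathlib

/-! Kernel-computable search used for the Ruzsa number of 38.  Subsets of `ZMod 19` are packed in
base `256`: the set `S` is `∑ i ∈ S, 256 ^ i`. -/

namespace Pool.Agent.R877.RZ

/-- modulus `256 ^ 19 - 1` -/
def M : ℕ := 5708990770823839524233143877797980545530986495

/-- the number all of whose nineteen base-`256` digits are `1` -/
def ones : ℕ := 22388199101269958918561348540384237433454849

/-- the number all of whose nineteen base-`256` digits are `128` -/
def high : ℕ := 2865689484962554741575852613169182391482220672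

def c125 : ℕ := 2798524887658744864820168567548029679181856125
def c127 : ℕ := 2843301285861284782657291264628798154048765823
def c122 : ℕ := 2731360290354934988064484521926876966881491578

/-- sufficient condition for `(P, Q)` with `I ⊆ Q ⊆ I + tl` being inadmissible. -/
def prune (p pp tl I : ℕ) : Bool :=
  cond (Nat.beq (Nat.land (Nat.add (Nat.mod (Nat.mul p I) M) c125) high) 0)
    (cond (Nat.beq (Nat.land (Nat.add (Nat.mod (Nat.mul p (Nat.add I tl)) M) c127) high) high)
      (cond (Nat.beq (Nat.land (Nat.add (Nat.mod (Nat.add pp (Nat.mul I I)) M) c122) high) 0)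
        (cond (Nat.beq (Nat.land (Nat.add (Nat.mod (Nat.add pp (Nat.mul (Nat.add I tl) (Nat.add I tl))) M) c127) high) high)
          false true) true) true) true

/-- the lowest `k` positions are undecided -/
noncomputable def search (p pp k : ℕ) : ℕ → Bool :=
  Nat.rec (motive := fun _ => ℕ → Bool) (fun I => prune p pp 0 I)
    (fun k ih I => cond (prune p pp (Nat.div (Nat.sub (Nat.pow 256 (Nat.succ k)) 1) 255) I) true
      (cond (ih (Nat.add I (Nat.pow 256 k))) (ih I) false)) k

/-- packed image of the set with element list `l` under `x ↦ (x - a) / (b - a)` -/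
noncomputable def img (a b : ℕ) (l : List ℕ) : ℕ :=
  List.rec (motive := fun _ => ℕ) 0 (fun i _ ih => Nat.add (Nat.pow 256 (Nat.mod (Nat.mul (Nat.pow (Nat.sub (Nat.add b 19) a) 17)
    (Nat.sub (Nat.add i 19) a)) 19)) ih) l

/-- some element `b` of `l'` other than `a` gives a smaller image -/
noncomputable def anyB (p a : ℕ) (l l' : List ℕ) : Bool :=
  List.rec (motive := fun _ => Bool) false (fun b _ ih => cond (Nat.beq a b) ih
    (cond (Nat.ble (Nat.succ (img a b l)) p) true ih)) l'

noncomputable def anyA (p : ℕ) (l l' : List ℕ) : Bool :=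
  List.rec (motive := fun _ => Bool) false (fun a _ ih => cond (anyB p a l l) true ih) l'

noncomputable def leafOK (p : ℕ) (l : List ℕ) : Bool :=
  cond (anyA p l l) true (search p (Nat.mul p p) 19 0)

noncomputable def searchP (k : ℕ) : ℕ → List ℕ → Bool :=
  Nat.rec (motive := fun _ => ℕ → List ℕ → Bool)
    (fun I l => cond (Nat.ble 5 (Nat.mod I 255)) true (leafOK (Nat.add I 257) (1 :: 0 :: l)))
    (fun k ih I l => cond (Nat.ble 5 (Nat.mod I 255)) true
      (cond (ih (Nat.add I (Nat.pow 256 (Nat.succ (Nat.succ k)))) (Nat.succ (Nat.succ k) :: l))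
        (ih I l) false)) k

theorem search_zero (p pp I : ℕ) : search p pp 0 I = prune p pp 0 I := rfl

theorem search_succ (p pp k I : ℕ) : search p pp (k + 1) I =
    cond (prune p pp (Nat.div (Nat.sub (Nat.pow 256 (Nat.succ k)) 1) 255) I) true
      (cond (search p pp k (I + 256 ^ k)) (search p pp k I) false) := rfl

theorem img_nil (a b : ℕ) : img a b [] = 0 := rfl

theorem img_cons (a b i : ℕ) (l : List ℕ) : img a b (i :: l) =
    256 ^ (((b + 19 - a) ^ 17 * (i + 19 - a)) % 19) + img a b l := rfl

theorem anyB_nil (p a : ℕ) (l : List ℕ) : anyB p a l [] = false := rfl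

theorem anyB_cons (p a b : ℕ) (l l' : List ℕ) : anyB p a l (b :: l') =
    cond (Nat.beq a b) (anyB p a l l')
      (cond (Nat.ble (Nat.succ (img a b l)) p) true (anyB p a l l')) := rfl

theorem anyA_nil (p : ℕ) (l : List ℕ) : anyA p l [] = false := rfl

theorem anyA_cons (p a : ℕ) (l l' : List ℕ) : anyA p l (a :: l') =
    cond (anyB p a l l) true (anyA p l l') := rfl

theorem leafOK_eq (p : ℕ) (l : List ℕ) : leafOK p l =
    cond (anyA p l l) true (search p (p * p) 19 0) := rfl

theorem searchP_zero (I : ℕ) (l : List ℕ) : searchP 0 I l =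
    cond (Nat.ble 5 (I % 255)) true (leafOK (I + 257) (1 :: 0 :: l)) := rfl

theorem searchP_succ (k I : ℕ) (l : List ℕ) : searchP (k + 1) I l =
    cond (Nat.ble 5 (I % 255)) true
      (cond (searchP k (I + 256 ^ (k + 2)) ((k + 2) :: l)) (searchP k I l) false) := rfl

attribute [irreducible] search img anyB anyA leafOK searchP

end Pool.Agent.R877.RZ
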