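import Mathlib
import Pool.Agent.R877.RZ.Search

/-! The exhaustive search, evaluated by the kernel (split by the largest element). -/

namespace Pool.Agent.R877.RZ

theorem searchP_join (k I : ℕ) (l : List ℕ)
    (h1 : searchP k (I + 256 ^ (k + 2)) ((k + 2) :: l) = true) (h2 : searchP k I l = true) :
    searchP (k + 1) I l = true := by
  rw [searchP_succ, h1, h2, cond_true]
  cases Nat.ble 5 (I % 255) <;> rfl

theorem t0 : searchP 0 (0 + 256 ^ (0 + 2)) ([0 + 2]) = true := by decide +kernel

theorem t1 : searchP 1 (0 + 256 ^ (1 + 2)) ([1 + 2]) = true := by decide +kernel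

theorem t2 : searchP 2 (0 + 256 ^ (2 + 2)) ([2 + 2]) = true := by decide +kernel

theorem t3 : searchP 3 (0 + 256 ^ (3 + 2)) ([3 + 2]) = true := by decide +kernel

theorem t4 : searchP 4 (0 + 256 ^ (4 + 2)) ([4 + 2]) = true := by decide +kernel

theorem t5 : searchP 5 (0 + 256 ^ (5 + 2)) ([5 + 2]) = true := by decide +kernel

theorem t6 : searchP 6 (0 + 256 ^ (6 + 2)) ([6 + 2]) = true := by decide +kernel

theorem t7 : searchP 7 (0 + 256 ^ (7 + 2)) ([7 + 2]) = true := by decide +kernel

theorem t8 : searchP 8 (0 + 256 ^ (8 + 2)) ([8 + 2]) = true := by decide +kernel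

theorem t9 : searchP 9 (0 + 256 ^ (9 + 2)) ([9 + 2]) = true := by decide +kernel

theorem t10 : searchP 10 (0 + 256 ^ (10 + 2)) ([10 + 2]) = true := by decide +kernel

theorem t11 : searchP 11 (0 + 256 ^ (11 + 2)) ([11 + 2]) = true := by decide +kernel

theorem t12 : searchP 12 (0 + 256 ^ (12 + 2)) ([12 + 2]) = true := by decide +kernel

theorem t13 : searchP 13 (0 + 256 ^ (13 + 2)) ([13 + 2]) = true := by decide +kernel

theorem t14 : searchP 14 (0 + 256 ^ (14 + 2)) ([14 + 2]) = true := by decide +kernel

theorem t15 : searchP 15 (0 + 256 ^ (15 + 2)) ([15 + 2]) = true := by decide +kernel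

theorem t16 : searchP 16 (0 + 256 ^ (16 + 2)) ([16 + 2]) = true := by decide +kernel

theorem s0 : searchP 0 0 [] = true := by decide +kernel

theorem s1 : searchP 1 0 [] = true := searchP_join 0 0 [] t0 s0

theorem s2 : searchP 2 0 [] = true := searchP_join 1 0 [] t1 s1

theorem s3 : searchP 3 0 [] = true := searchP_join 2 0 [] t2 s2

theorem s4 : searchP 4 0 [] = true := searchP_join 3 0 [] t3 s3

theorem s5 : searchP 5 0 [] = true := searchP_join 4 0 [] t4 s4

theorem s6 : searchP 6 0 [] = true := searchP_join 5 0 [] t5 s5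

theorem s7 : searchP 7 0 [] = true := searchP_join 6 0 [] t6 s6

theorem s8 : searchP 8 0 [] = true := searchP_join 7 0 [] t7 s7

theorem s9 : searchP 9 0 [] = true := searchP_join 8 0 [] t8 s8

theorem s10 : searchP 10 0 [] = true := searchP_join 9 0 [] t9 s9

theorem s11 : searchP 11 0 [] = true := searchP_join 10 0 [] t10 s10

theorem s12 : searchP 12 0 [] = true := searchP_join 11 0 [] t11 s11

theorem s13 : searchP 13 0 [] = true := searchP_join 12 0 [] t12 s12

theorem s14 : searchP 14 0 [] = true := searchP_join 13 0 [] t13 s13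

theorem s15 : searchP 15 0 [] = true := searchP_join 14 0 [] t14 s14

theorem s16 : searchP 16 0 [] = true := searchP_join 15 0 [] t15 s15

theorem s17 : searchP 17 0 [] = true := searchP_join 16 0 [] t16 s16

end Pool.Agent.R877.RZ
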