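import Mathlib
import Pool.Agent.R877.RZ.Search

/-! Packed representation of functions on `ZMod 19` and soundness of the search. -/

namespace Pool.Agent.R877.RZ

abbrev G := ZMod 19

/-- convolution -/
def conv (f g : G → ℕ) (t : G) : ℕ := ∑ a, f a * g (t - a)

/-- packing in base 256 -/
def pkN (n : ℕ) (f : ℕ → ℕ) : ℕ := ∑ i ∈ Finset.range n, f i * 256 ^ i

def pk (f : G → ℕ) : ℕ := pkN 19 (fun i => f (i : G))

theorem pkN_succ (n : ℕ) (f : ℕ → ℕ) :
    pkN (n + 1) f = 256 * pkN n (fun i => f (i + 1)) + f 0 := by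
  unfold pkN
  rw [Finset.sum_range_succ', Finset.mul_sum]
  simp only [pow_zero, mul_one]
  congr 1
  apply Finset.sum_congr rfl
  intro i _
  ring

theorem land_digit (a b c d : ℕ) (hb : b < 256) (hd : d < 256) :
    (256 * a + b) &&& (256 * c + d) = 256 * (a &&& c) + (b &&& d) := by
  have hbd : b &&& d < 2 ^ 8 := lt_of_le_of_lt Nat.and_le_left hb
  have h256 : (256 : ℕ) = 2 ^ 8 := by norm_num
  rw [h256] at hb hd ⊢
  apply Nat.eq_of_testBit_eq
  intro j
  rw [Nat.testBit_and, Nat.testBit_two_pow_mul_add _ hb, Nat.testBit_two_pow_mul_add _ hd,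
    Nat.testBit_two_pow_mul_add _ hbd]
  split_ifs <;> simp [Nat.testBit_and]

theorem pkN_land (n : ℕ) : ∀ (f g : ℕ → ℕ), (∀ i, f i < 256) → (∀ i, g i < 256) →
    pkN n f &&& pkN n g = pkN n (fun i => f i &&& g i) := by
  induction n with
  | zero => intro f g _ _; simp [pkN]
  | succ n ih =>
    intro f g hf hg
    rw [pkN_succ, pkN_succ, pkN_succ, land_digit _ _ _ _ (hf 0) (hg 0),
      ih _ _ (fun i => hf (i + 1)) (fun i => hg (i + 1))]

theorem pkN_congr (n : ℕ) (f g : ℕ → ℕ) (h : ∀ i, f i = g i) : pkN n f = pkN n g := by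
  unfold pkN
  apply Finset.sum_congr rfl
  intro i _
  rw [h]

theorem land_128_lt : ∀ d : ℕ, d < 128 → d &&& 128 = 0 := by decide +kernel
theorem land_128_ge : ∀ d : ℕ, d < 256 → 128 ≤ d → d &&& 128 = 128 := by decide +kernel

theorem pk_high : pk (fun _ => 128) = high := by decide +kernel
theorem pk_c125 : pk (fun _ => 125) = c125 := by decide +kernel
theorem pk_c127 : pk (fun _ => 127) = c127 := by decide +kernel
theorem pk_c122 : pk (fun _ => 122) = c122 := by decide +kernel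
theorem pk_c254 : pk (fun _ => 254) < M := by decide +kernel

theorem pk_add (f g : G → ℕ) : pk f + pk g = pk (fun a => f a + g a) := by
  unfold pk pkN
  rw [← Finset.sum_add_distrib]
  apply Finset.sum_congr rfl
  intro i _
  ring

theorem pk_mono (f g : G → ℕ) (h : ∀ a, f a ≤ g a) : pk f ≤ pk g := by
  unfold pk pkN
  apply Finset.sum_le_sum
  intro i _
  exact Nat.mul_le_mul_right _ (h _)

theorem pk_land_high_zero (f : G → ℕ) (h : ∀ a, f a < 128) : pk f &&& high = 0 := by
  rw [← pk_high]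
  unfold pk
  rw [pkN_land 19 _ _ (fun i => lt_trans (h _) (by norm_num)) (fun _ => by norm_num)]
  rw [pkN_congr 19 _ (fun _ => 0) (fun i => land_128_lt _ (h _))]
  simp [pkN]

theorem pk_land_high_high (f : G → ℕ) (h : ∀ a, f a < 256) (h' : ∀ a, 128 ≤ f a) :
    pk f &&& high = high := by
  rw [← pk_high]
  unfold pk
  rw [pkN_land 19 _ _ (fun i => h _) (fun _ => by norm_num)]
  exact pkN_congr 19 _ _ (fun i => land_128_ge _ (h _) (h' _))

theorem pk_eq_sum (f : G → ℕ) : pk f = ∑ a : G, f a * 256 ^ a.val := by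
  unfold pk pkN
  rw [← Fin.sum_univ_eq_sum_range (fun i => f (i : G) * 256 ^ i) 19]
  apply Finset.sum_congr rfl
  intro i _
  have : ((i.val : ℕ) : G) = (i : G) := ZMod.natCast_zmod_val (n := 19) i
  rw [this]
  rfl

theorem pow19 : (256 : ZMod M) ^ 19 = 1 := by
  have h : ((256 ^ 19 : ℕ) : ZMod M) = ((1 : ℕ) : ZMod M) := by
    rw [ZMod.natCast_eq_natCast_iff]
    decide +kernel
  push_cast at h
  exact h

theorem pk_mul (f g : G → ℕ) : pk f * pk g ≡ pk (conv f g) [MOD M] := by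
  rw [← ZMod.natCast_eq_natCast_iff]
  rw [pk_eq_sum, pk_eq_sum, pk_eq_sum]
  push_cast
  unfold conv
  push_cast
  rw [Finset.sum_mul_sum]
  have : ∀ t : G, (∑ a : G, (f a : ZMod M) * (g (t - a) : ZMod M)) * 256 ^ t.val
      = ∑ a : G, (f a : ZMod M) * (g (t - a) : ZMod M) * 256 ^ t.val := by
    intro t; rw [Finset.sum_mul]
  simp_rw [this]
  rw [Finset.sum_comm (f := fun t a => (f a : ZMod M) * (g (t - a) : ZMod M) * 256 ^ t.val)]
  apply Finset.sum_congr rfl
  intro a _
  rw [← Equiv.sum_comp (Equiv.addLeft a)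
    (fun t => (f a : ZMod M) * (g (t - a) : ZMod M) * 256 ^ t.val)]
  apply Finset.sum_congr rfl
  intro b _
  simp only [Equiv.coe_addLeft, add_sub_cancel_left]
  have hv : (256 : ZMod M) ^ (a + b).val = 256 ^ (a.val) * 256 ^ (b.val) := by
    rw [← pow_add, ZMod.val_add]
    exact (pow_mod_of_pow_eq_one' 19 (a.val + b.val))
  rw [hv]
  ring
where
  pow_mod_of_pow_eq_one' (n k : ℕ) : (256 : ZMod M) ^ (k % 19) = 256 ^ k := by
    conv_rhs => rw [← Nat.mod_add_div k 19, pow_add, pow_mul, pow19, one_pow, mul_one]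

theorem mod_eq_of (X : ℕ) (f : G → ℕ) (h : X ≡ pk f [MOD M]) (hf : ∀ a, f a ≤ 254) :
    X % M = pk f := by
  have h1 : pk f < M := lt_of_le_of_lt (pk_mono f _ hf) pk_c254
  rw [h, Nat.mod_eq_of_lt h1]

end Pool.Agent.R877.RZ
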