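import Mathlib
import Pool.Agent.R877.RZ.Pack

/-! Soundness of `prune` and `search`. -/

namespace Pool.Agent.R877.RZ

/-- the pair `(P, Q)` of indicator functions is admissible -/
structure Adm (P Q : G → ℕ) : Prop where
  hP : ∀ a, P a ≤ 1
  hQ : ∀ a, Q a ≤ 1
  h1 : ∀ t, 1 ≤ conv P Q t
  h2 : ∀ t, conv P Q t ≤ 2
  h3 : ∀ t, 1 ≤ conv P P t + conv Q Q t
  h4 : ∀ t, conv P P t + conv Q Q t ≤ 5

theorem conv_mono (f f' g g' : G → ℕ) (hf : ∀ a, f a ≤ f' a) (hg : ∀ a, g a ≤ g' a) (t : G) :
    conv f g t ≤ conv f' g' t := by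
  unfold conv
  apply Finset.sum_le_sum
  intro a _
  exact Nat.mul_le_mul (hf _) (hg _)

theorem conv_le_19 (f g : G → ℕ) (hf : ∀ a, f a ≤ 1) (hg : ∀ a, g a ≤ 1) (t : G) :
    conv f g t ≤ 19 := by
  unfold conv
  calc ∑ a, f a * g (t - a) ≤ ∑ _a : G, 1 := by
        apply Finset.sum_le_sum
        intro a _
        calc f a * g (t - a) ≤ 1 * 1 := Nat.mul_le_mul (hf _) (hg _)
          _ = 1 := rfl
    _ = 19 := by simp

theorem prune_sound (P Q L T : G → ℕ) (h : Adm P Q) (hL : ∀ a, L a ≤ Q a)
    (hT : ∀ a, Q a ≤ L a + T a) (hLT : ∀ a, L a + T a ≤ 1) :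
    prune (pk P) (pk P * pk P) (pk T) (pk L) = false := by
  have hL1 : ∀ a, L a ≤ 1 := fun a => le_trans (hL a) (h.hQ a)
  have e1 : Nat.beq (Nat.land (Nat.add (Nat.mod (Nat.mul (pk P) (pk L)) M) c125) high) 0 = true := by
    have hc : ∀ t, conv P L t ≤ 2 := fun t => le_trans (conv_mono P P L Q (fun _ => le_refl _) hL t) (h.h2 t)
    have := mod_eq_of (pk P * pk L) (conv P L) (pk_mul _ _) (fun t => le_trans (hc t) (by norm_num))
    have h2 : (pk P * pk L % M + c125) &&& high = 0 := by
      rw [this, ← pk_c125, pk_add]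
      apply pk_land_high_zero
      intro a
      have := hc a
      omega
    rw [Nat.beq_eq]
    exact h2
  have e2 : Nat.beq (Nat.land (Nat.add (Nat.mod (Nat.mul (pk P) (Nat.add (pk L) (pk T))) M) c127) high) high = true := by
    have hc : ∀ t, 1 ≤ conv P (fun a => L a + T a) t := fun t =>
      le_trans (h.h1 t) (conv_mono P P Q _ (fun _ => le_refl _) hT t)
    have hc' : ∀ t, conv P (fun a => L a + T a) t ≤ 19 := conv_le_19 _ _ h.hP hLT
    have := mod_eq_of (pk P * (pk L + pk T)) (conv P (fun a => L a + T a))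
      (by rw [pk_add]; exact pk_mul _ _) (fun t => le_trans (hc' t) (by norm_num))
    have h2 : (pk P * (pk L + pk T) % M + c127) &&& high = high := by
      rw [this, ← pk_c127, pk_add]
      apply pk_land_high_high
      · intro a
        have := hc' a
        omega
      · intro a
        have := hc a
        omega
    rw [Nat.beq_eq]
    exact h2
  have e3 : Nat.beq (Nat.land (Nat.add (Nat.mod (Nat.add (pk P * pk P) (Nat.mul (pk L) (pk L))) M) c122) high) 0 = true := by
    have hc : ∀ t, conv P P t + conv L L t ≤ 5 := fun t =>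
      le_trans (Nat.add_le_add_left (conv_mono L Q L Q hL hL t) _) (h.h4 t)
    have := mod_eq_of (pk P * pk P + pk L * pk L) (fun t => conv P P t + conv L L t)
      (by rw [← pk_add]; exact (pk_mul _ _).add (pk_mul _ _)) (fun t => le_trans (hc t) (by norm_num))
    have h2 : ((pk P * pk P + pk L * pk L) % M + c122) &&& high = 0 := by
      rw [this, ← pk_c122, pk_add]
      apply pk_land_high_zero
      intro a
      have := hc a
      omega
    rw [Nat.beq_eq]
    exact h2
  have e4 : Nat.beq (Nat.land (Nat.add (Nat.mod (Nat.add (pk P * pk P) (Nat.mul (Nat.add (pk L) (pk T)) (Nat.add (pk L) (pk T)))) M) c127) high) high = true := by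
    have hc : ∀ t, 1 ≤ conv P P t + conv (fun a => L a + T a) (fun a => L a + T a) t := fun t =>
      le_trans (h.h3 t) (Nat.add_le_add_left (conv_mono Q _ Q _ hT hT t) _)
    have hc' : ∀ t, conv P P t + conv (fun a => L a + T a) (fun a => L a + T a) t ≤ 38 := by
      intro t
      have g1 := conv_le_19 _ _ h.hP h.hP t
      have g2 := conv_le_19 _ _ hLT hLT t
      omega
    have hm : pk P * pk P + (pk L + pk T) * (pk L + pk T) ≡
        pk (fun t => conv P P t + conv (fun a => L a + T a) (fun a => L a + T a) t) [MOD M] := by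
      have k1 := (pk_mul P P).add (pk_mul (fun a => L a + T a) (fun a => L a + T a))
      rw [pk_add (conv P P)] at k1
      rw [pk_add L T]
      exact k1
    have := mod_eq_of _ _ hm (fun t => by have := hc' t; omega)
    have h2 : ((pk P * pk P + (pk L + pk T) * (pk L + pk T)) % M + c127) &&& high = high := by
      rw [this, ← pk_c127, pk_add]
      apply pk_land_high_high
      · intro a
        have := hc' a
        omega
      · intro a
        have := hc a
        omega
    rw [Nat.beq_eq]
    exact h2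
  unfold prune
  rw [e1, e2, e3, e4]
  rfl

/-- part of `Q` above `k` -/
def hiPart (k : ℕ) (Q : G → ℕ) (a : G) : ℕ := if k ≤ a.val then Q a else 0

def loInd (k : ℕ) (a : G) : ℕ := if a.val < k then 1 else 0

theorem hiPart_nineteen (Q : G → ℕ) : pk (hiPart 19 Q) = 0 := by
  rw [pk_eq_sum]
  apply Finset.sum_eq_zero
  intro a _
  have := ZMod.val_lt a
  simp [hiPart, Nat.not_le.mpr this]

theorem pk_loInd : ∀ k : ℕ, k ≤ 19 → pk (loInd k) = Nat.div (Nat.sub (Nat.pow 256 k) 1) 255 := by
  decide +kernel

theorem pk_hiPart_succ (Q : G → ℕ) (k : ℕ) (hk : k < 19) :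
    pk (hiPart k Q) = pk (hiPart (k + 1) Q) + Q (k : G) * 256 ^ k := by
  rw [pk_eq_sum, pk_eq_sum]
  have hkv : ((k : ℕ) : G).val = k := ZMod.val_cast_of_lt hk
  have : ∀ a : G, hiPart k Q a * 256 ^ a.val =
      hiPart (k + 1) Q a * 256 ^ a.val + (if a = (k : G) then Q (k : G) * 256 ^ k else 0) := by
    intro a
    unfold hiPart
    by_cases h : a = (k : G)
    · subst h
      simp [hkv]
    · have hne : a.val ≠ k := by
        intro h'
        apply h
        rw [← h']
        exact (ZMod.natCast_zmod_val a).symm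
      have : (k ≤ a.val) ↔ (k + 1 ≤ a.val) := by omega
      simp [h, this]
  simp_rw [this]
  rw [Finset.sum_add_distrib]
  simp

theorem search_sound (P Q : G → ℕ) (h : Adm P Q) (k : ℕ) (hk : k ≤ 19) :
    search (pk P) (pk P * pk P) k (pk (hiPart k Q)) = false := by
  have hpr : ∀ k, k ≤ 19 → prune (pk P) (pk P * pk P) (Nat.div (Nat.sub (Nat.pow 256 k) 1) 255)
      (pk (hiPart k Q)) = false := by
    intro k hk
    rw [← pk_loInd k hk]
    apply prune_sound P Q _ _ h
    · intro a; unfold hiPart; split_ifs <;> simp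
    · intro a; unfold hiPart loInd
      have := h.hQ a
      split_ifs <;> omega
    · intro a; unfold hiPart loInd
      have := h.hQ a
      split_ifs <;> omega
  induction k with
  | zero =>
    rw [search_zero]
    exact hpr 0 hk
  | succ k ih =>
    rw [search_succ, hpr (k + 1) hk]
    simp only [cond_false]
    have ih' := ih (by omega)
    have hs := pk_hiPart_succ Q k (by omega)
    have hq := h.hQ (k : G)
    have hq' : Q (k : G) = 0 ∨ Q (k : G) = 1 := by omega
    rcases hq' with h0 | h1
    · rw [h0, zero_mul, add_zero] at hs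
      rw [← hs, ih']
      cases search (pk P) (pk P * pk P) k (pk (hiPart k Q) + 256 ^ k) <;> rfl
    · rw [h1, one_mul] at hs
      rw [← hs, ih']
      rfl

theorem search_contra (P Q : G → ℕ) (h : Adm P Q)
    (hs : search (pk P) (pk P * pk P) 19 0 = true) : False := by
  have := search_sound P Q h 19 le_rfl
  rw [hiPart_nineteen] at this
  rw [hs] at this
  exact absurd this (by simp)

end Pool.Agent.R877.RZ
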