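import Mathlib
import Pool.Agent.R877.RZ.Sound

/-! Soundness of the search over normalised first components. -/

namespace Pool.Agent.R877.RZ

/-- positions in `[k + 2, 19)` belonging to `P` -/
def lst (P : G → ℕ) (k : ℕ) : List ℕ :=
  (List.range' (k + 2) (17 - k)).filter (fun i : ℕ => decide (P (i : G) = 1))

theorem lst_top (P : G → ℕ) : lst P 17 = [] := rfl

theorem lst_step (P : G → ℕ) (k : ℕ) (hk : k < 17) :
    lst P k = if P ((k + 2 : ℕ) : G) = 1 then (k + 2) :: lst P (k + 1) else lst P (k + 1) := by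
  unfold lst
  have h1 : 17 - k = (17 - (k + 1)) + 1 := by omega
  rw [h1, List.range'_succ, List.filter_cons]
  have h2 : k + 2 + 1 = k + 1 + 2 := by omega
  rw [h2]
  simp only [decide_eq_true_eq]

theorem pk_mod (f : G → ℕ) : pk f ≡ ∑ a, f a [MOD 255] := by
  rw [pk_eq_sum]
  rw [← ZMod.natCast_eq_natCast_iff]
  push_cast
  apply Finset.sum_congr rfl
  intro a _
  have h : ((256 : ℕ) : ZMod 255) = 1 := by decide
  have h' : (256 : ZMod 255) = 1 := by exact_mod_cast h
  rw [h', one_pow, mul_one]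

theorem sum_hiPart (P : G → ℕ) (h0 : P 0 = 1) (h1 : P 1 = 1) (k : ℕ) :
    ∑ a, hiPart (k + 2) P a + 2 ≤ ∑ a, P a := by
  have : (∑ a : G, hiPart (k + 2) P a) + 2 =
      ∑ a : G, (hiPart (k + 2) P a + ((if a = 0 then 1 else 0) + (if a = 1 then 1 else 0))) := by
    rw [Finset.sum_add_distrib, Finset.sum_add_distrib]
    simp
  rw [this]
  apply Finset.sum_le_sum
  intro a _
  unfold hiPart
  by_cases ha0 : a = 0
  · subst ha0
    simp [h0]
    decide
  · by_cases ha1 : a = 1
    · subst ha1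
      have : ¬ (k + 2 ≤ (1 : G).val) := by
        have : (1 : G).val = 1 := rfl
        omega
      have h10 : (1 : G) ≠ 0 := by decide
      simp [h1, this, h10]
    · simp only [ha0, ha1, if_false, add_zero]
      split_ifs <;> simp

theorem ble_false (P : G → ℕ) (h0 : P 0 = 1) (h1 : P 1 = 1) (h6 : ∑ a, P a ≤ 6) (k : ℕ) :
    Nat.ble 5 (pk (hiPart (k + 2) P) % 255) = false := by
  have h := pk_mod (hiPart (k + 2) P)
  have h2 := sum_hiPart P h0 h1 k
  have h3 : (∑ a, hiPart (k + 2) P a) % 255 = ∑ a, hiPart (k + 2) P a :=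
    Nat.mod_eq_of_lt (by omega)
  unfold Nat.ModEq at h
  rw [h, h3]
  have : ¬ (5 ≤ ∑ a, hiPart (k + 2) P a) := by omega
  cases hb : Nat.ble 5 (∑ a, hiPart (k + 2) P a)
  · rfl
  · exact absurd (Nat.le_of_ble_eq_true hb) this

theorem hiPart_zero (P : G → ℕ) : hiPart 0 P = P := by
  funext a
  simp [hiPart]

theorem cond_and {x y : Bool} (h : cond x y false = true) : x = true ∧ y = true := by
  cases x <;> cases y <;> simp_all

theorem searchP_zero' (I p : ℕ) (l : List ℕ) (hb : Nat.ble 5 (I % 255) = false) (hp : I + 257 = p)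
    (hs : searchP 0 I l = true) : leafOK p (1 :: 0 :: l) = true := by
  subst hp
  rw [searchP_zero, hb, cond_false] at hs
  exact hs

theorem searchP_succ' (k I : ℕ) (l : List ℕ) (hb : Nat.ble 5 (I % 255) = false)
    (hs : searchP (k + 1) I l = true) :
    searchP k (I + 256 ^ (k + 2)) ((k + 2) :: l) = true ∧ searchP k I l = true := by
  rw [searchP_succ, hb, cond_false] at hs
  exact cond_and hs

theorem pk_two (P : G → ℕ) (h0 : P 0 = 1) (h1 : P 1 = 1) :
    pk (hiPart (0 + 2) P) + 257 = pk P := by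
  have e0 := pk_hiPart_succ P 0 (by norm_num)
  have e1 := pk_hiPart_succ P 1 (by norm_num)
  rw [hiPart_zero] at e0
  have c0 : ((0 : ℕ) : G) = 0 := by simp
  have c1 : ((1 : ℕ) : G) = 1 := by simp
  rw [c0, h0] at e0
  rw [c1, h1] at e1
  have r2 : hiPart (0 + 2) P = hiPart (1 + 1) P := rfl
  have r1 : hiPart (0 + 1) P = hiPart 1 P := rfl
  rw [r2]
  rw [r1, e1] at e0
  generalize pk (hiPart (1 + 1) P) = x at *
  generalize pk P = y at *
  rw [e0]
  norm_num

theorem searchP_path (P : G → ℕ) (hP : ∀ a, P a ≤ 1) (h0 : P 0 = 1) (h1 : P 1 = 1)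
    (h6 : ∑ a, P a ≤ 6) (k : ℕ) (hk : k ≤ 17)
    (hs : searchP k (pk (hiPart (k + 2) P)) (lst P k) = true) :
    leafOK (pk P) (1 :: 0 :: lst P 0) = true := by
  induction k with
  | zero => exact searchP_zero' _ _ _ (ble_false P h0 h1 h6 0) (pk_two P h0 h1) hs
  | succ k ih =>
    have hand := searchP_succ' k _ _ (ble_false P h0 h1 h6 (k + 1)) hs
    have ih' := ih (by omega)
    have e := pk_hiPart_succ P (k + 2) (by omega)
    have el := lst_step P k (by omega)
    have hq := hP ((k + 2 : ℕ) : G)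
    have hq' : P ((k + 2 : ℕ) : G) = 0 ∨ P ((k + 2 : ℕ) : G) = 1 :=
      Nat.le_one_iff_eq_zero_or_eq_one.mp hq
    have r3 : hiPart (k + 1 + 2) P = hiPart (k + 2 + 1) P := rfl
    rw [r3] at hand
    clear hs ih
    rcases hq' with hz | ho
    · rw [hz, Nat.zero_mul, Nat.add_zero (pk (hiPart (k + 2 + 1) P))] at e
      rw [hz, if_neg (by norm_num)] at el
      apply ih'
      rw [e, el]
      exact hand.2
    · rw [ho, Nat.one_mul] at e
      rw [ho, if_pos rfl] at el
      apply ih'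
      rw [e, el]
      exact hand.1

theorem img_eq (a b : ℕ) (l : List ℕ) : img a b l =
    (l.map (fun i => 256 ^ (((b + 19 - a) ^ 17 * (i + 19 - a)) % 19))).sum := by
  induction l with
  | nil => rw [img_nil]; rfl
  | cons i l ih =>
    rw [img_cons, ih, List.map_cons, List.sum_cons]

theorem anyB_spec (p a : ℕ) (l l' : List ℕ) (h : anyB p a l l' = true) :
    ∃ b ∈ l', a ≠ b ∧ img a b l < p := by
  induction l' with
  | nil => rw [anyB_nil] at h; exact absurd h (by simp)
  | cons b l' ih =>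
    rw [anyB_cons] at h
    cases h1 : Nat.beq a b
    · rw [h1, cond_false] at h
      cases h2 : Nat.ble (Nat.succ (img a b l)) p
      · rw [h2, cond_false] at h
        obtain ⟨c, hc, hc'⟩ := ih h
        exact ⟨c, List.mem_cons_of_mem _ hc, hc'⟩
      · refine ⟨b, List.mem_cons_self, ?_, Nat.le_of_ble_eq_true h2⟩
        intro hab
        rw [hab] at h1
        have : Nat.beq b b = true := Nat.beq_refl b
        rw [this] at h1
        exact absurd h1 (by simp)
    · rw [h1, cond_true] at h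
      obtain ⟨c, hc, hc'⟩ := ih h
      exact ⟨c, List.mem_cons_of_mem _ hc, hc'⟩

theorem anyA_spec (p : ℕ) (l l' : List ℕ) (h : anyA p l l' = true) :
    ∃ a ∈ l', ∃ b ∈ l, a ≠ b ∧ img a b l < p := by
  induction l' with
  | nil => rw [anyA_nil] at h; exact absurd h (by simp)
  | cons a l' ih =>
    rw [anyA_cons] at h
    cases h1 : anyB p a l l
    · rw [h1, cond_false] at h
      obtain ⟨c, hc, hc'⟩ := ih h
      exact ⟨c, List.mem_cons_of_mem _ hc, hc'⟩
    · obtain ⟨b, hb, hb'⟩ := anyB_spec _ _ _ _ h1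
      exact ⟨a, List.mem_cons_self, b, hb, hb'⟩

theorem filter_sum (P : G → ℕ) (hP : ∀ a, P a ≤ 1) (h : ℕ → ℕ) (r : List ℕ) :
    ((r.filter (fun i : ℕ => decide (P (i : G) = 1))).map h).sum =
      (r.map (fun i : ℕ => P (i : G) * h i)).sum := by
  induction r with
  | nil => rfl
  | cons i r ih =>
    rw [List.filter_cons]
    have hq := hP (i : G)
    have hq' : P (i : G) = 0 ∨ P (i : G) = 1 := by omega
    rcases hq' with hz | ho
    · simp [hz, ih]
    · simp [ho, ih]

theorem full_sum (P : G → ℕ) (hP : ∀ a, P a ≤ 1) (h0 : P 0 = 1) (h1 : P 1 = 1) (h : ℕ → ℕ) :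
    ((1 :: 0 :: lst P 0).map h).sum = ∑ i ∈ Finset.range 19, P (i : G) * h i := by
  simp only [List.map_cons, List.sum_cons]
  unfold lst
  rw [filter_sum P hP h]
  simp only [Finset.sum_range_succ, Finset.sum_range_zero, List.range', List.map_cons,
    List.map_nil, List.sum_cons, List.sum_nil]
  simp only [Nat.cast_zero, Nat.cast_one, h0, h1]
  ring

theorem mem_full (P : G → ℕ) (h0 : P 0 = 1) (h1 : P 1 = 1) (a : ℕ)
    (ha : a ∈ 1 :: 0 :: lst P 0) : a < 19 ∧ P (a : G) = 1 := by
  rcases List.mem_cons.mp ha with h | h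
  · subst h; simp [h1]
  · rcases List.mem_cons.mp h with h | h
    · subst h; simp [h0]
    · unfold lst at h
      rw [List.mem_filter] at h
      obtain ⟨h2, h3⟩ := h
      rw [List.mem_range'] at h2
      obtain ⟨i, hi, hi'⟩ := h2
      refine ⟨by omega, by simpa using h3⟩

instance : Fact (Nat.Prime 19) := ⟨by norm_num⟩

/-- affine substitution -/
def aff (a d : G) (P : G → ℕ) (y : G) : ℕ := P (a + d * y)

noncomputable def affEquiv (a d : G) (hd : d ≠ 0) : G ≃ G where
  toFun y := a + d * y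
  invFun x := d⁻¹ * (x - a)
  left_inv y := by
    simp only [add_sub_cancel_left]
    rw [← mul_assoc, inv_mul_cancel₀ hd, one_mul]
  right_inv x := by
    simp only
    rw [← mul_assoc, mul_inv_cancel₀ hd, one_mul]
    ring

theorem conv_aff (a d : G) (hd : d ≠ 0) (P Q : G → ℕ) (t : G) :
    conv (aff a d P) (aff a d Q) t = conv P Q (a + a + d * t) := by
  unfold conv
  rw [← Equiv.sum_comp (affEquiv a d hd) (fun x => P x * Q (a + a + d * t - x))]
  apply Finset.sum_congr rfl
  intro y _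
  unfold aff
  simp only [affEquiv, Equiv.coe_fn_mk]
  congr 2
  ring

theorem Adm.aff {P Q : G → ℕ} (h : Adm P Q) (a d : G) (hd : d ≠ 0) :
    Adm (aff a d P) (aff a d Q) where
  hP := fun _ => h.hP _
  hQ := fun _ => h.hQ _
  h1 := fun t => by rw [conv_aff a d hd]; exact h.h1 _
  h2 := fun t => by rw [conv_aff a d hd]; exact h.h2 _
  h3 := fun t => by rw [conv_aff a d hd, conv_aff a d hd]; exact h.h3 _
  h4 := fun t => by rw [conv_aff a d hd, conv_aff a d hd]; exact h.h4 _

theorem sum_aff (a d : G) (hd : d ≠ 0) (P : G → ℕ) : ∑ y, aff a d P y = ∑ x, P x :=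
  Equiv.sum_comp (affEquiv a d hd) P

theorem term_eq (a b : ℕ) (ha : a < 19) (P : G → ℕ)
    (hd : ((b : G) - (a : G)) ≠ 0) (j : G) :
    P ((j.val : ℕ) : G) * 256 ^ (((b + 19 - a) ^ 17 * (j.val + 19 - a)) % 19) =
      aff (a : G) ((b : G) - (a : G)) P ((affEquiv (a : G) _ hd).symm j) *
        256 ^ ((affEquiv (a : G) _ hd).symm j).val := by
  have hi : ((j.val : ℕ) : G) = j := ZMod.natCast_zmod_val j
  have hjl : j.val < 19 := ZMod.val_lt j
  simp only [affEquiv, Equiv.coe_fn_symm_mk, aff]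
  rw [hi]
  have hinv : ((b : G) - (a : G))⁻¹ = ((b : G) - (a : G)) ^ 17 := by
    have h18 := ZMod.pow_card_sub_one_eq_one hd
    have h18' : ((b : G) - (a : G)) ^ 17 * ((b : G) - (a : G)) = 1 := by
      rw [← pow_succ]
      exact h18
    exact inv_eq_of_mul_eq_one_left h18'
  have e1 : (a : G) + ((b : G) - (a : G)) * (((b : G) - (a : G))⁻¹ * (j - (a : G))) = j := by
    rw [← mul_assoc, mul_inv_cancel₀ hd, one_mul]
    ring
  have e2 : (((b : G) - (a : G))⁻¹ * (j - (a : G))).val = ((b + 19 - a) ^ 17 * (j.val + 19 - a)) % 19 := by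
    rw [← ZMod.val_natCast]
    congr 1
    rw [hinv]
    rw [Nat.cast_mul, Nat.cast_pow, Nat.cast_sub (by omega), Nat.cast_sub (by omega)]
    push_cast
    have h19 : (19 : G) = 0 := by decide
    rw [h19]
    simp only [ZMod.natCast_val, ZMod.cast_id', id_eq, add_zero]
  rw [e1, e2]

theorem pk_aff (a b : ℕ) (ha : a < 19) (P : G → ℕ)
    (hP : ∀ a, P a ≤ 1) (h0 : P 0 = 1) (h1 : P 1 = 1) (hd : ((b : G) - (a : G)) ≠ 0) :
    img a b (1 :: 0 :: lst P 0) = pk (aff (a : G) ((b : G) - (a : G)) P) := by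
  rw [img_eq, full_sum P hP h0 h1, pk_eq_sum]
  rw [← Fin.sum_univ_eq_sum_range
    (fun i => P (i : G) * 256 ^ (((b + 19 - a) ^ 17 * (i + 19 - a)) % 19)) 19]
  rw [← Equiv.sum_comp (affEquiv (a : G) _ hd).symm
    (fun y => aff (a : G) ((b : G) - (a : G)) P y * 256 ^ y.val)]
  exact Finset.sum_congr rfl (fun i _ => term_eq a b ha P hd i)

theorem sub_ne (a b : ℕ) (ha : a < 19) (hb : b < 19) (hab : a ≠ b) :
    ((b : G) - (a : G)) ≠ 0 := by
  rw [sub_ne_zero]
  intro h
  apply hab
  have := congrArg ZMod.val h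
  rw [ZMod.val_cast_of_lt hb, ZMod.val_cast_of_lt ha] at this
  exact this.symm

end Pool.Agent.R877.RZ
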