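import Mathlib
import Pool.Agent.R877.RZ.Tree
import Pool.Agent.R877.RZ.Kernel

/-! No admissible pair exists. -/

namespace Pool.Agent.R877.RZ

theorem cond_or {x y : Bool} (h : cond x true y = true) : x = true ∨ y = true := by
  cases x <;> simp_all

theorem no_adm_normal (n : ℕ) : ∀ P Q : G → ℕ, pk P = n → Adm P Q → P 0 = 1 → P 1 = 1 →
    ∑ a, P a ≤ 6 → False := by
  induction n using Nat.strong_induction_on with
  | _ n ih =>
    intro P Q hn h h0 h1 h6
    have hs : searchP 17 (pk (hiPart (17 + 2) P)) (lst P 17) = true := by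
      rw [hiPart_nineteen, lst_top]
      exact s17
    have hl := searchP_path P h.hP h0 h1 h6 17 le_rfl hs
    rw [leafOK_eq] at hl
    rcases cond_or hl with ha | hq
    · obtain ⟨a, ha, b, hb, hab, hlt⟩ := anyA_spec _ _ _ ha
      obtain ⟨ha19, hPa⟩ := mem_full P h0 h1 a ha
      obtain ⟨hb19, hPb⟩ := mem_full P h0 h1 b hb
      have hd := sub_ne a b ha19 hb19 hab
      rw [pk_aff a b ha19 P h.hP h0 h1 hd, hn] at hlt
      refine ih _ hlt _ _ rfl (h.aff (a : G) _ hd) ?_ ?_ ?_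
      · simp [aff, hPa]
      · simp [aff, hPb]
      · rw [sum_aff _ _ hd]
        exact h6
    · exact search_contra P Q h hq

theorem conv_comm (P Q : G → ℕ) (t : G) : conv P Q t = conv Q P t := by
  unfold conv
  rw [← Equiv.sum_comp (Equiv.subLeft t) (fun a => Q a * P (t - a))]
  apply Finset.sum_congr rfl
  intro a _
  simp [mul_comm]

theorem Adm.symm {P Q : G → ℕ} (h : Adm P Q) : Adm Q P where
  hP := h.hQ
  hQ := h.hP
  h1 := fun t => by rw [conv_comm]; exact h.h1 t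
  h2 := fun t => by rw [conv_comm]; exact h.h2 t
  h3 := fun t => by rw [add_comm]; exact h.h3 t
  h4 := fun t => by rw [add_comm]; exact h.h4 t

theorem sum_conv (P Q : G → ℕ) : ∑ t, conv P Q t = (∑ a, P a) * (∑ b, Q b) := by
  unfold conv
  rw [Finset.sum_comm, Finset.sum_mul]
  apply Finset.sum_congr rfl
  intro a _
  have hq : ∑ i, Q (i - a) = ∑ b, Q b := Equiv.sum_comp (Equiv.subRight a) Q
  rw [← Finset.mul_sum, hq]

theorem no_adm_le (P Q : G → ℕ) (h : Adm P Q) (hle : ∑ a, P a ≤ ∑ a, Q a) : False := by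
  have hPQ := sum_conv P Q
  have hPP := sum_conv P P
  have hQQ := sum_conv Q Q
  have b1 : ∑ t, conv P Q t ≤ 38 := by
    calc ∑ t, conv P Q t ≤ ∑ _t : G, 2 := Finset.sum_le_sum (fun t _ => h.h2 t)
      _ = 38 := by simp
  have b2 : 19 ≤ ∑ t, conv P Q t := by
    calc 19 = ∑ _t : G, 1 := by simp
      _ ≤ ∑ t, conv P Q t := Finset.sum_le_sum (fun t _ => h.h1 t)
  have b3 : ∑ t, conv P P t + ∑ t, conv Q Q t ≤ 95 := by
    rw [← Finset.sum_add_distrib]
    calc ∑ t, (conv P P t + conv Q Q t) ≤ ∑ _t : G, 5 := Finset.sum_le_sum (fun t _ => h.h4 t)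
      _ = 95 := by simp
  rw [hPQ] at b1 b2
  rw [hPP, hQQ] at b3
  have h6 : ∑ a, P a ≤ 6 := by
    clear hPQ hPP hQQ b2 b3
    generalize ∑ a, P a = p at *
    generalize ∑ a, Q a = q at *
    by_contra hc
    push Not at hc
    have : 7 * 7 ≤ p * q := Nat.mul_le_mul hc (le_trans hc hle)
    omega
  have h2 : 2 ≤ ∑ a, P a := by
    clear hPQ hPP hQQ b1 h6
    generalize ∑ a, P a = p at *
    generalize ∑ a, Q a = q at *
    by_contra hc
    push Not at hc
    have h1 : p * q ≤ 1 * q := Nat.mul_le_mul (by omega) le_rfl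
    have h3 : 19 * 19 ≤ q * q := Nat.mul_le_mul (by omega) (by omega)
    omega
  -- two distinct elements
  obtain ⟨a, ha⟩ : ∃ a, P a = 1 := by
    by_contra hc
    push Not at hc
    have : ∑ a, P a = 0 := Finset.sum_eq_zero (fun a _ => by
      have h1 := h.hP a
      have h2 := hc a
      omega)
    omega
  obtain ⟨b, hb, hab⟩ : ∃ b, P b = 1 ∧ b ≠ a := by
    by_contra hc
    push Not at hc
    have : ∑ x, P x ≤ ∑ x, (if x = a then 1 else 0) := Finset.sum_le_sum (fun x _ => by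
      have h1 := h.hP x
      have h2 := hc x
      split_ifs with hx
      · omega
      · have : P x ≠ 1 := fun h3 => hx (h2 h3)
        omega)
    simp at this
    omega
  have hd : b - a ≠ 0 := sub_ne_zero.mpr hab
  refine no_adm_normal _ _ _ rfl (h.aff a (b - a) hd) ?_ ?_ ?_
  · simp [aff, ha]
  · simp [aff, hb]
  · rw [sum_aff _ _ hd]
    exact h6

theorem no_adm (P Q : G → ℕ) (h : Adm P Q) : False := by
  rcases le_total (∑ a, P a) (∑ a, Q a) with hle | hle
  · exact no_adm_le P Q h hle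
  · exact no_adm_le Q P h.symm hle

/-- representation function on `ZMod 38` -/
def rep (f : ZMod 38 → ℕ) (n : ZMod 38) : ℕ := ∑ x, f x * f (n - x)

theorem key (e : ZMod 38 ≃+* ZMod 2 × ZMod 19) (f : ZMod 38 → ℕ) (s : ZMod 2) (t : ZMod 19) :
    rep f (e.symm (s, t)) =
      ∑ a : ZMod 19, f (e.symm (0, a)) * f (e.symm (s - 0, t - a)) +
      ∑ a : ZMod 19, f (e.symm (1, a)) * f (e.symm (s - 1, t - a)) := by
  unfold rep
  rw [← Equiv.sum_comp e.symm.toEquiv (fun x => f x * f (e.symm (s, t) - x))]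
  rw [Fintype.sum_prod_type]
  have h2 : ∀ g : ZMod 2 → ℕ, ∑ x, g x = g 0 + g 1 := fun g => Fin.sum_univ_two g
  rw [h2]
  refine congrArg₂ (· + ·) ?_ ?_
  · apply Finset.sum_congr rfl
    intro a _
    have : e.symm (s - 0, t - a) = e.symm (s, t) - e.symm (0, a) := by
      rw [← map_sub]
      rfl
    rw [this]
    rfl
  · apply Finset.sum_congr rfl
    intro a _
    have : e.symm (s - 1, t - a) = e.symm (s, t) - e.symm (1, a) := by
      rw [← map_sub]
      rfl
    rw [this]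
    rfl

def cP (e : ZMod 38 ≃+* ZMod 2 × ZMod 19) (f : ZMod 38 → ℕ) (s : ZMod 2) (a : G) : ℕ :=
  f (e.symm (s, a))

theorem key0 (e : ZMod 38 ≃+* ZMod 2 × ZMod 19) (f : ZMod 38 → ℕ) (t : ZMod 19) :
    rep f (e.symm (0, t)) = conv (cP e f 0) (cP e f 0) t + conv (cP e f 1) (cP e f 1) t := by
  rw [key]
  have h1 : (0 : ZMod 2) - 0 = 0 := by decide
  have h2 : (0 : ZMod 2) - 1 = 1 := by decide
  rw [h1, h2]
  unfold conv cP
  rfl

theorem key1 (e : ZMod 38 ≃+* ZMod 2 × ZMod 19) (f : ZMod 38 → ℕ) (t : ZMod 19) :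
    rep f (e.symm (1, t)) = conv (cP e f 0) (cP e f 1) t + conv (cP e f 1) (cP e f 0) t := by
  rw [key]
  have h1 : (1 : ZMod 2) - 0 = 1 := by decide
  have h2 : (1 : ZMod 2) - 1 = 0 := by decide
  rw [h1, h2]
  unfold conv cP
  rfl

theorem no_basis_38' (e : ZMod 38 ≃+* ZMod 2 × ZMod 19) (f : ZMod 38 → ℕ) (hf : ∀ x, f x ≤ 1)
    (h : ∀ n, 1 ≤ rep f n ∧ rep f n ≤ 5) : False := by
  apply no_adm (cP e f 0) (cP e f 1)
  refine ⟨fun a => hf _, fun a => hf _, ?_, ?_, ?_, ?_⟩
  · intro t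
    have h1 := (h (e.symm (1, t))).1
    rw [key1, conv_comm (cP e f 1) (cP e f 0)] at h1
    omega
  · intro t
    have h1 := (h (e.symm (1, t))).2
    rw [key1, conv_comm (cP e f 1) (cP e f 0)] at h1
    omega
  · intro t
    have h1 := (h (e.symm (0, t))).1
    rw [key0] at h1
    exact h1
  · intro t
    have h1 := (h (e.symm (0, t))).2
    rw [key0] at h1
    exact h1

theorem no_basis_38 (f : ZMod 38 → ℕ) (hf : ∀ x, f x ≤ 1)
    (h : ∀ n, 1 ≤ rep f n ∧ rep f n ≤ 5) : False :=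
  no_basis_38' (ZMod.chineseRemainder (m := 2) (n := 19) (by norm_num)) f hf h

end Pool.Agent.R877.RZ
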